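import Mathlib
import Pool.Agent.W978.QO.Stm

set_option autoImplicit false

namespace Pool.Agent.W597.QO

open Finset Pool.Agent.W978.QN Pool.Agent.W978.QO

theorem nm_nn (v : Fin 3 → ℤ) : 0 ≤ nm v :=
  (abs_nonneg (v 0)).trans ((le_max_left _ _).trans (le_max_left _ _))

theorem ls : S_LS := by
  classical
  rintro a ⟨c, K, hc, hbox⟩
  obtain ⟨k0, hk0⟩ : ∃ k0 : ℕ, K ≤ 2 ^ k0 := ⟨K, Nat.lt_two_pow_self.le⟩
  have hS : ∀ X₁ X₂ X₃ : ℕ, ∃ S : Finset (Fin 3 → Fin 3 → ℤ),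
      K ≤ X₁ → K ≤ X₂ → K * (X₁ * X₂) ^ 3 ≤ X₃ →
      ((∀ P ∈ S, (∀ i, Rep (P i)) ∧ tf a P = 0 ∧ InU a P ∧
      nm (P 0) ≤ X₁ ∧ (X₁ : ℤ) < 2 * nm (P 0) ∧ nm (P 1) ≤ X₂ ∧ (X₂ : ℤ) < 2 * nm (P 1) ∧
      nm (P 2) ≤ X₃) ∧
    c * ((X₁ : ℝ) * X₂ * X₃) ^ 2 ≤ (S.card : ℝ)) := by
    intro X₁ X₂ X₃
    by_cases h : K ≤ X₁ ∧ K ≤ X₂ ∧ K * (X₁ * X₂) ^ 3 ≤ X₃
    · obtain ⟨S, hS1, hS2⟩ := hbox X₁ X₂ X₃ h.1 h.2.1 h.2.2
      exact ⟨S, fun _ _ _ => ⟨hS1, hS2⟩⟩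
    · exact ⟨∅, fun h1 h2 h3 => absurd ⟨h1, h2, h3⟩ h⟩
  choose S hS using hS
  refine ⟨c / 6400, 2 ^ (20 * k0 + 20), by positivity, ?_⟩
  intro B hB
  have hB0 : B ≠ 0 := by
    have : 0 < 2 ^ (20 * k0 + 20) := by positivity
    omega
  obtain ⟨L, hL⟩ : ∃ L, L = Nat.log 2 B := ⟨_, rfl⟩
  have hL1 : 2 ^ L ≤ B := by rw [hL]; exact Nat.pow_log_le_self 2 hB0
  have hL2 : B < 2 ^ (L + 1) := by rw [hL]; exact Nat.lt_pow_succ_log_self (by norm_num) B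
  have hL3 : 20 * k0 + 20 ≤ L := by
    rw [hL]
    exact (Nat.le_log_iff_pow_le (by norm_num) hB0).2 hB
  obtain ⟨m, hm⟩ : ∃ m, m = L / 10 := ⟨_, rfl⟩
  let I : Finset (ℕ × ℕ) := (Icc k0 m) ×ˢ (Icc k0 m)
  let T : ℕ × ℕ → Finset (Fin 3 → Fin 3 → ℤ) := fun p =>
    S (2 ^ p.1) (2 ^ p.2) (B / (2 ^ p.1 * 2 ^ p.2))
  have hI : ∀ p ∈ I, k0 ≤ p.1 ∧ p.1 ≤ m ∧ k0 ≤ p.2 ∧ p.2 ≤ m := by
    intro p hp
    rw [mem_product, mem_Icc, mem_Icc] at hp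
    exact ⟨hp.1.1, hp.1.2, hp.2.1, hp.2.2⟩
  have hT : ∀ p ∈ I, ((∀ P ∈ T p, (∀ i, Rep (P i)) ∧ tf a P = 0 ∧ InU a P ∧
      nm (P 0) ≤ ((2 ^ p.1 : ℕ) : ℤ) ∧ ((2 ^ p.1 : ℕ) : ℤ) < 2 * nm (P 0) ∧
      nm (P 1) ≤ ((2 ^ p.2 : ℕ) : ℤ) ∧ ((2 ^ p.2 : ℕ) : ℤ) < 2 * nm (P 1) ∧
      nm (P 2) ≤ ((B / (2 ^ p.1 * 2 ^ p.2) : ℕ) : ℤ)) ∧
    c * (((2 ^ p.1 : ℕ) : ℝ) * ((2 ^ p.2 : ℕ) : ℝ) * ((B / (2 ^ p.1 * 2 ^ p.2) : ℕ) : ℝ)) ^ 2 ≤
      ((T p).card : ℝ)) := by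
    intro p hp
    obtain ⟨h1, h2, h3, h4⟩ := hI p hp
    apply hS
    · exact hk0.trans (Nat.pow_le_pow_right (by norm_num) h1)
    · exact hk0.trans (Nat.pow_le_pow_right (by norm_num) h3)
    · rw [Nat.le_div_iff_mul_le (by positivity)]
      calc K * (2 ^ p.1 * 2 ^ p.2) ^ 3 * (2 ^ p.1 * 2 ^ p.2)
          = K * (2 ^ p.1 * 2 ^ p.2) ^ 4 := by ring
        _ ≤ 2 ^ k0 * (2 ^ m * 2 ^ m) ^ 4 := by
            apply Nat.mul_le_mul hk0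
            apply Nat.pow_le_pow_left
            exact Nat.mul_le_mul (Nat.pow_le_pow_right (by norm_num) h2)
              (Nat.pow_le_pow_right (by norm_num) h4)
        _ = 2 ^ (k0 + 8 * m) := by rw [pow_add, pow_mul']; ring
        _ ≤ 2 ^ L := Nat.pow_le_pow_right (by norm_num) (by omega)
        _ ≤ B := hL1
  refine ⟨I.biUnion T, ?_, ?_⟩
  · intro P hP
    obtain ⟨p, hp, hPp⟩ := Finset.mem_biUnion.1 hP
    obtain ⟨h1, h2, h3, h4, _, h5, _, h6⟩ := (hT p hp).1 P hPp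
    refine ⟨h1, h2, h3, ?_⟩
    rw [Fin.prod_univ_three]
    have e1 : ((2 ^ p.1 : ℕ) : ℤ) * ((2 ^ p.2 : ℕ) : ℤ) *
        ((B / (2 ^ p.1 * 2 ^ p.2) : ℕ) : ℤ) ≤ (B : ℤ) := by
      exact_mod_cast Nat.mul_div_le B (2 ^ p.1 * 2 ^ p.2)
    refine le_trans ?_ e1
    apply mul_le_mul _ h6 (nm_nn _) (by positivity)
    exact mul_le_mul h4 h5 (nm_nn _) (by positivity)
  · have hdisj : Set.PairwiseDisjoint (I : Set (ℕ × ℕ)) T := by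
      have key : ∀ (x : ℤ) (i j : ℕ), x ≤ ((2 ^ i : ℕ) : ℤ) → ((2 ^ j : ℕ) : ℤ) < 2 * x → j ≤ i := by
        intro x i j h1 h2
        by_contra h
        have h3 : i + 1 ≤ j := by omega
        have h4 : (2 : ℕ) ^ (i + 1) ≤ 2 ^ j := Nat.pow_le_pow_right (by norm_num) h3
        have h5 : ((2 ^ (i + 1) : ℕ) : ℤ) ≤ ((2 ^ j : ℕ) : ℤ) := by exact_mod_cast h4
        have h6 : ((2 ^ (i + 1) : ℕ) : ℤ) = 2 * ((2 ^ i : ℕ) : ℤ) := by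
          push_cast
          ring
        linarith
      intro p hp p' hp' hne
      rw [Function.onFun, Finset.disjoint_left]
      intro P hP hP'
      obtain ⟨_, _, _, a1, a2, a3, a4, _⟩ := (hT p hp).1 P hP
      obtain ⟨_, _, _, b1, b2, b3, b4, _⟩ := (hT p' hp').1 P hP'
      apply hne
      ext
      · exact le_antisymm (key _ _ _ b1 a2) (key _ _ _ a1 b2)
      · exact le_antisymm (key _ _ _ b3 a4) (key _ _ _ a3 b4)
    rw [Finset.card_biUnion hdisj]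
    push_cast
    have hBr : (0 : ℝ) < B := by exact_mod_cast Nat.pos_of_ne_zero hB0
    have hterm : ∀ p ∈ I, c * (B : ℝ) ^ 2 / 4 ≤ ((T p).card : ℝ) := by
      intro p hp
      obtain ⟨h1, h2, h3, h4⟩ := hI p hp
      refine le_trans ?_ (hT p hp).2
      have hD : 2 * (2 ^ p.1 * 2 ^ p.2) ≤ B := by
        calc 2 * (2 ^ p.1 * 2 ^ p.2) ≤ 2 * (2 ^ m * 2 ^ m) := by
              apply Nat.mul_le_mul le_rfl
              exact Nat.mul_le_mul (Nat.pow_le_pow_right (by norm_num) h2)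
                (Nat.pow_le_pow_right (by norm_num) h4)
          _ = 2 ^ (1 + 2 * m) := by rw [pow_add, pow_mul']; ring
          _ ≤ 2 ^ L := Nat.pow_le_pow_right (by norm_num) (by omega)
          _ ≤ B := hL1
      have hD2 : B ≤ 2 * (2 ^ p.1 * 2 ^ p.2 * (B / (2 ^ p.1 * 2 ^ p.2))) := by
        have h5 := Nat.div_add_mod B (2 ^ p.1 * 2 ^ p.2)
        have h6 := Nat.mod_lt B (show 0 < 2 ^ p.1 * 2 ^ p.2 by positivity)
        omega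
      have hD3 : (B : ℝ) / 2 ≤ ((2 ^ p.1 : ℕ) : ℝ) * ((2 ^ p.2 : ℕ) : ℝ) *
          ((B / (2 ^ p.1 * 2 ^ p.2) : ℕ) : ℝ) := by
        have h7 : (B : ℝ) ≤ 2 * (((2 ^ p.1 : ℕ) : ℝ) * ((2 ^ p.2 : ℕ) : ℝ) *
          ((B / (2 ^ p.1 * 2 ^ p.2) : ℕ) : ℝ)) := by exact_mod_cast hD2
        linarith
      have h8 := pow_le_pow_left₀ (by positivity) hD3 2
      calc c * (B : ℝ) ^ 2 / 4 = c * ((B : ℝ) / 2) ^ 2 := by ring
        _ ≤ _ := mul_le_mul_of_nonneg_left h8 hc.le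
    have hsum := Finset.sum_le_sum hterm
    rw [Finset.sum_const, nsmul_eq_mul] at hsum
    refine le_trans ?_ hsum
    have hIc : (I.card : ℝ) = ((m + 1 - k0 : ℕ) : ℝ) ^ 2 := by
      have : I.card = (m + 1 - k0) ^ 2 := by
        rw [card_product, Nat.card_Icc]
        ring
      rw [this]
      push_cast
      rfl
    have hlog : Real.log B ≤ 40 * ((m + 1 - k0 : ℕ) : ℝ) := by
      have e1 : Real.log B ≤ (L : ℝ) + 1 := by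
        have e2 : (B : ℝ) ≤ (2 : ℝ) ^ (L + 1) := by exact_mod_cast hL2.le
        have e3 := Real.log_le_log hBr e2
        rw [Real.log_pow] at e3
        have e4 : Real.log 2 ≤ 1 := by
          have := Real.log_two_lt_d9
          linarith
        push_cast at e3
        have e5 : ((L : ℝ) + 1) * Real.log 2 ≤ ((L : ℝ) + 1) * 1 :=
          mul_le_mul_of_nonneg_left e4 (by positivity)
        linarith
      have e6 : L + 1 ≤ 40 * (m + 1 - k0) := by omega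
      have e7 : (L : ℝ) + 1 ≤ 40 * ((m + 1 - k0 : ℕ) : ℝ) := by exact_mod_cast e6
      linarith
    have hlog0 : 0 ≤ Real.log B := Real.log_natCast_nonneg B
    have hlog2 := pow_le_pow_left₀ hlog0 hlog 2
    rw [hIc]
    calc c / 6400 * (B : ℝ) ^ 2 * (Real.log B) ^ 2
        ≤ c / 6400 * (B : ℝ) ^ 2 * (40 * ((m + 1 - k0 : ℕ) : ℝ)) ^ 2 :=
          mul_le_mul_of_nonneg_left hlog2 (by positivity)
      _ = _ := by ring

end Pool.Agent.W597.QO
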